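import Mathlib

namespace Pool.Agent.Results.MP_cfb286_al.PSLTwoModFour

open Matrix

/-- The elementary steps generating `∼_m` (for the prime `p`): conjugation, and multiplication of
`g` by `h ^ (p ^ (m - 1))` where `h` commutes with `g` and has `p`-power order. -/
def Step {G : Type} [Group G] (p m : ℕ) (g g' : G) : Prop :=
  (∃ x : G, g' = x * g * x⁻¹) ∨
    ∃ h : G, h * g = g * h ∧ (∃ k : ℕ, orderOf h = p ^ k) ∧ g' = g * h ^ (p ^ (m - 1))

/-- `∼_m`: the smallest equivalence relation containing `Step p m`. -/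
def Sim {G : Type} [Group G] (p m : ℕ) (g g' : G) : Prop := Relation.EqvGen (Step p m) g g'

/-- `χ` is a complex character of `G`: the trace function of a complex representation of finite
degree. -/
def IsChar {G : Type} [Group G] (χ : G → ℂ) : Prop :=
  ∃ (n : ℕ) (ρ : Representation ℂ G (Fin n → ℂ)), ρ.character = χ

theorem trace_idem {V : Type*} [AddCommGroup V] [Module ℂ V] [FiniteDimensional ℂ V]
    (e : V →ₗ[ℂ] V) (he : e * e = e) : ∃ n : ℤ, LinearMap.trace ℂ V e = n := by
  have h : LinearMap.IsProj (LinearMap.range e) e := LinearMap.IsIdempotentElem.isProj_range e he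
  exact ⟨(Module.finrank ℂ (LinearMap.range e) : ℤ), by rw [h.trace]; simp⟩

theorem congr_four {G : Type} [Group G] {y z : G} (hy : y * y = 1) (hz : z * z = 1)
    (hyz : y * z = z * y) (c1 : IsConj y z) (c2 : IsConj y (y * z)) (χ : G → ℂ)
    (hχ : IsChar χ) : ∃ n : ℤ, χ 1 - χ y = 4 * n := by
  obtain ⟨d, ρ, rfl⟩ := hχ
  set A : Module.End ℂ (Fin d → ℂ) := ρ y with hA
  set B : Module.End ℂ (Fin d → ℂ) := ρ z with hB
  have hAA : A * A = 1 := by rw [hA, ← map_mul, hy, map_one]
  have hBB : B * B = 1 := by rw [hB, ← map_mul, hz, map_one]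
  have hAB : A * B = B * A := by rw [hA, hB, ← map_mul, ← map_mul, hyz]
  have e1 : (1 + A) * (1 + A) = (2 : ℂ) • (1 + A) := by
    rw [two_smul, mul_add, mul_one, add_mul, one_mul, hAA]
    abel
  have e2 : (1 + B) * (1 + B) = (2 : ℂ) • (1 + B) := by
    rw [two_smul, mul_add, mul_one, add_mul, one_mul, hBB]
    abel
  have hc : (1 + A) * (1 + B) = (1 + B) * (1 + A) := by
    rw [mul_add, mul_one, add_mul, one_mul, mul_add, mul_one, add_mul, one_mul, hAB]
    abel
  have hcB : ρ.character z = ρ.character y := by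
    obtain ⟨c, hc⟩ := isConj_iff.1 c1
    rw [← hc, Representation.char_conj]
  have hcAB : ρ.character (y * z) = ρ.character y := by
    obtain ⟨c, hc⟩ := isConj_iff.1 c2
    rw [← hc, Representation.char_conj]
  have tA : LinearMap.trace ℂ _ A = ρ.character y := rfl
  have tB : LinearMap.trace ℂ _ B = ρ.character y := hcB
  have tAB : LinearMap.trace ℂ _ (A * B) = ρ.character y := by
    rw [← hcAB, hA, hB, ← map_mul]; rfl
  have t1 : LinearMap.trace ℂ _ (1 : Module.End ℂ (Fin d → ℂ)) = ρ.character 1 := by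
    rw [← map_one ρ]; rfl
  obtain ⟨n, hn⟩ := trace_idem (((1 / 2 : ℂ)) • (1 + A)) (by
    rw [smul_mul_smul_comm, e1, smul_smul]; norm_num)
  obtain ⟨m, hm⟩ := trace_idem (((1 / 4 : ℂ)) • ((1 + A) * (1 + B))) (by
    rw [smul_mul_smul_comm]
    have : (1 + A) * (1 + B) * ((1 + A) * (1 + B)) = (4 : ℂ) • ((1 + A) * (1 + B)) := by
      calc (1 + A) * (1 + B) * ((1 + A) * (1 + B))
          = (1 + A) * ((1 + B) * (1 + A)) * (1 + B) := by noncomm_ring
        _ = (1 + A) * ((1 + A) * (1 + B)) * (1 + B) := by rw [hc]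
        _ = ((1 + A) * (1 + A)) * ((1 + B) * (1 + B)) := by noncomm_ring
        _ = (4 : ℂ) • ((1 + A) * (1 + B)) := by
            rw [e1, e2, smul_mul_smul_comm]; norm_num
    rw [this, smul_smul]; norm_num)
  rw [map_smul, map_add, t1, tA, smul_eq_mul] at hn
  have hexp : (1 + A) * (1 + B) = 1 + A + B + A * B := by noncomm_ring
  rw [hexp, map_smul, map_add, map_add, map_add, t1, tA, tB, tAB, smul_eq_mul] at hm
  refine ⟨n - m, ?_⟩
  push_cast
  linear_combination (-4) * hm + 4 * hn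

section PSL

open Matrix.SpecialLinearGroup
open scoped MatrixGroups

variable {F : Type} [Field F]

/-- Cayley–Hamilton in rank two with determinant one. -/
theorem cayley (X : Matrix (Fin 2) (Fin 2) F) (hX : X.det = 1) :
    X * X = X.trace • X - 1 := by
  rw [Matrix.det_fin_two] at hX
  ext i j
  fin_cases i <;> fin_cases j <;>
    simp [Matrix.mul_apply, Fin.sum_univ_two, Matrix.trace_fin_two] <;>
    first
      | linear_combination (-1) * hX
      | ring

theorem mk_eq_one_iff (X : SL(2, F)) : (QuotientGroup.mk X : PSL(2, F)) = 1 ↔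
    ((X : Matrix (Fin 2) (Fin 2) F) = 1 ∨ (X : Matrix (Fin 2) (Fin 2) F) = -1) := by
  rw [QuotientGroup.eq_one_iff, Matrix.SpecialLinearGroup.mem_center_iff]
  constructor
  · rintro ⟨r, hr, hX⟩
    have h1 : r = 1 ∨ r = -1 := by
      rw [Fintype.card_fin, pow_two] at hr
      exact mul_self_eq_one_iff.1 hr
    rcases h1 with rfl | rfl
    · left; rw [← hX]; simp
    · right; rw [← hX]; ext i j; simp [Matrix.scalar_apply, Matrix.diagonal_apply, Matrix.one_apply]; split_ifs <;> simp
  · rintro (h | h)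
    · exact ⟨1, by simp, by rw [h]; simp⟩
    · exact ⟨-1, by simp, by rw [h]; ext i j; simp [Matrix.scalar_apply, Matrix.diagonal_apply, Matrix.one_apply]; split_ifs <;> simp⟩

theorem pow_four (h2 : (2 : F) ≠ 0) (hns : ¬ IsSquare (2 : F)) (X : PSL(2, F)) (hX : X ^ 4 = 1) :
    X ^ 2 = 1 := by
  obtain ⟨X, rfl⟩ := QuotientGroup.mk_surjective X
  rw [← QuotientGroup.mk_pow, mk_eq_one_iff] at hX ⊢
  set M : Matrix (Fin 2) (Fin 2) F := (X : Matrix (Fin 2) (Fin 2) F) with hM
  have hdet : M.det = 1 := X.2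
  have c1 := cayley M hdet
  have hdet2 : (M * M).det = 1 := by rw [Matrix.det_mul, hdet, one_mul]
  have c2 := cayley (M * M) hdet2
  have htr : (M * M).trace = M.trace ^ 2 - 2 := by
    rw [c1, Matrix.trace_sub, Matrix.trace_smul, Matrix.trace_one]
    simp [pow_two]
  have e4 : ((X ^ 4 : SL(2, F)) : Matrix (Fin 2) (Fin 2) F) = M * M * (M * M) := by
    rw [Matrix.SpecialLinearGroup.coe_pow, ← hM]; noncomm_ring
  have e2 : ((X ^ 2 : SL(2, F)) : Matrix (Fin 2) (Fin 2) F) = M * M := by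
    rw [Matrix.SpecialLinearGroup.coe_pow, ← hM, pow_two]
  rw [e4, c2] at hX
  rw [e2]
  set t := (M * M).trace with ht
  rcases hX with h | h
  · -- `t • M² = 2`
    have h3 : t • (M * M) = (2 : F) • (1 : Matrix (Fin 2) (Fin 2) F) := by
      rw [sub_eq_iff_eq_add] at h
      rw [h, two_smul]
    have ht0 : t ≠ 0 := by
      intro h0
      rw [h0, zero_smul] at h3
      have := congrFun (congrFun h3 0) 0
      simp at this
      exact h2 this.symm
    have h4 : M * M = (t⁻¹ * 2) • (1 : Matrix (Fin 2) (Fin 2) F) := by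
      rw [mul_smul, ← h3, smul_smul, inv_mul_cancel₀ ht0, one_smul]
    have h5 : (t⁻¹ * 2) ^ 2 = 1 := by
      have := hdet2
      rw [h4, Matrix.det_smul] at this
      simpa using this
    rw [pow_two] at h5
    rcases mul_self_eq_one_iff.1 h5 with h6 | h6
    · left; rw [h4, h6, one_smul]
    · right; rw [h4, h6, neg_smul, one_smul]
  · exfalso
    have h3 : t • (M * M) = 0 := by
      rw [sub_eq_iff_eq_add] at h
      rw [h]; simp
    have hne : M * M ≠ 0 := by
      intro h0
      rw [h0] at hdet2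
      simp at hdet2
    have ht0 : t = 0 := (smul_eq_zero.1 h3).resolve_right hne
    rw [ht0] at htr
    exact hns ⟨M.trace, by linear_combination htr⟩

theorem two_power (h2 : (2 : F) ≠ 0) (hns : ¬ IsSquare (2 : F)) (n : ℕ) (X : PSL(2, F))
    (hX : X ^ (2 ^ n) = 1) : X ^ 2 = 1 := by
  induction n with
  | zero =>
    rw [pow_zero, pow_one] at hX
    rw [hX, one_pow]
  | succ n ih =>
    rcases Nat.eq_zero_or_pos n with rfl | hn
    · simpa using hX
    · obtain ⟨m, rfl⟩ : ∃ m, n = m + 1 := ⟨n - 1, by omega⟩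
      apply ih
      have h4 : (X ^ (2 ^ m)) ^ 4 = 1 := by
        rw [← pow_mul]
        have : 2 ^ m * 4 = 2 ^ (m + 1 + 1) := by rw [pow_succ, pow_succ]; ring
        rw [this, hX]
      have h5 := pow_four h2 hns _ h4
      rw [← pow_mul] at h5
      rw [pow_succ]
      exact h5

section mats
variable (a b : F) (hab : a ^ 2 + b ^ 2 = -1)

/-- `i` -/
def mI : Matrix (Fin 2) (Fin 2) F := !![0, 1; -1, 0]
/-- `j` -/
def mJ : Matrix (Fin 2) (Fin 2) F := !![a, b; b, -a]
/-- `(1 + i + j + ij) / 2` -/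
def mW : Matrix (Fin 2) (Fin 2) F :=
  (2 : F)⁻¹ • !![1 + a + b, 1 + b - a; -1 + b - a, 1 - a - b]

theorem mII : (mI : Matrix (Fin 2) (Fin 2) F) * mI = -1 := by
  ext i j
  fin_cases i <;> fin_cases j <;> simp [mI]

include hab in
theorem mJJ : mJ a b * mJ a b = -1 := by
  rw [mJ, ← Matrix.ext_iff]
  intro i j
  fin_cases i <;> fin_cases j <;> simp <;>
    first
      | linear_combination hab
      | ring1

theorem mIJ : mI * mJ a b = -1 * (mJ a b * mI) := by
  rw [mJ, mI, ← Matrix.ext_iff]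
  intro i j
  fin_cases i <;> fin_cases j <;> simp

include hab in
theorem mWI : mW a b * mI = mJ a b * mW a b := by
  rw [mJ, mI, mW, smul_mul_assoc, mul_smul_comm]
  congr 1
  rw [← Matrix.ext_iff]
  intro i j
  fin_cases i <;> fin_cases j <;> simp <;>
    first
      | linear_combination hab
      | linear_combination (-1) * hab
      | ring1

include hab in
theorem mWJ : mW a b * mJ a b = mI * mJ a b * mW a b := by
  rw [mJ, mI, mW, smul_mul_assoc, mul_smul_comm]
  congr 1
  rw [← Matrix.ext_iff]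
  intro i j
  fin_cases i <;> fin_cases j <;> simp <;>
    first
      | linear_combination hab
      | linear_combination (-1) * hab
      | ring1

end mats

/-- the quaternion-type elements and the element permuting them -/
theorem exists_quat [Finite F] (h2 : (2 : F) ≠ 0) : ∃ y z : PSL(2, F), y ≠ 1 ∧ y * y = 1 ∧
    z * z = 1 ∧ y * z = z * y ∧ IsConj y z ∧ IsConj y (y * z) := by
  classical
  have : Fintype F := Fintype.ofFinite F
  obtain ⟨a, b, hab⟩ : ∃ a b : F, a ^ 2 + b ^ 2 = -1 := by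
    have : NeZero (ringChar F) := ⟨CharP.ringChar_ne_zero_of_finite F⟩
    obtain ⟨a, b, hab⟩ := CharP.sq_add_sq F (ringChar F) (-1)
    exact ⟨a, b, by simpa using hab⟩
  have dI : (mI : Matrix (Fin 2) (Fin 2) F).det = 1 := by simp [mI, Matrix.det_fin_two]
  have dJ : (mJ a b).det = 1 := by
    rw [mJ, Matrix.det_fin_two]; simp; linear_combination (-1) * hab
  have dW : (mW a b).det = 1 := by
    rw [mW, Matrix.det_smul, Matrix.det_fin_two]; simp; field_simp
    linear_combination (-2) * hab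
  obtain ⟨N, hN1⟩ : ∃ N : SL(2, F), N.1 = -1 := ⟨⟨-1, by simp [Matrix.det_fin_two]⟩, rfl⟩
  have hN : (QuotientGroup.mk N : PSL(2, F)) = 1 := (mk_eq_one_iff N).2 (Or.inr hN1)
  obtain ⟨I, hI⟩ : ∃ I : SL(2, F), I.1 = mI := ⟨⟨mI, dI⟩, rfl⟩
  obtain ⟨J, hJ⟩ : ∃ J : SL(2, F), J.1 = mJ a b := ⟨⟨mJ a b, dJ⟩, rfl⟩
  obtain ⟨W, hW⟩ : ∃ W : SL(2, F), W.1 = mW a b := ⟨⟨mW a b, dW⟩, rfl⟩
  have hII : I * I = N := Subtype.ext (by
    rw [hN1]; change I.1 * I.1 = _; rw [hI]; exact mII)
  have hJJ : J * J = N := Subtype.ext (by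
    rw [hN1]; change J.1 * J.1 = _; rw [hJ]; exact mJJ a b hab)
  have hIJ : I * J = N * (J * I) := Subtype.ext (by
    change I.1 * J.1 = N.1 * (J.1 * I.1); rw [hN1, hI, hJ]; exact mIJ a b)
  have hWI : W * I = J * W := Subtype.ext (by
    change W.1 * I.1 = J.1 * W.1; rw [hI, hJ, hW]; exact mWI a b hab)
  have hWJ : W * J = (I * J) * W := Subtype.ext (by
    change W.1 * J.1 = I.1 * J.1 * W.1; rw [hI, hJ, hW]; exact mWJ a b hab)
  have hconj1 : W * I * W⁻¹ = J := by rw [hWI]; group
  have hconj2 : W * J * W⁻¹ = I * J := by rw [hWJ]; group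
  refine ⟨QuotientGroup.mk I, QuotientGroup.mk J, ?_, ?_, ?_, ?_, ?_, ?_⟩
  · intro h
    rw [mk_eq_one_iff] at h
    change I.1 = 1 ∨ I.1 = -1 at h
    rw [hI] at h
    rcases h with h | h
    · have := congrFun (congrFun h 0) 0
      simp [mI] at this
    · have := congrFun (congrFun h 0) 0
      simp [mI] at this
  · rw [← QuotientGroup.mk_mul, hII, hN]
  · rw [← QuotientGroup.mk_mul, hJJ, hN]
  · rw [← QuotientGroup.mk_mul, hIJ, QuotientGroup.mk_mul, hN, one_mul, QuotientGroup.mk_mul]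
  · rw [isConj_iff]
    exact ⟨QuotientGroup.mk W, by
      rw [← hconj1]; rfl⟩
  · rw [isConj_iff]
    refine ⟨QuotientGroup.mk (W * W), ?_⟩
    have : W * W * I * (W * W)⁻¹ = I * J := by
      rw [← hconj2, ← hconj1]; group
    calc (QuotientGroup.mk (W * W) : PSL(2, F)) * QuotientGroup.mk I * (QuotientGroup.mk (W * W))⁻¹
        = QuotientGroup.mk (W * W * I * (W * W)⁻¹) := rfl
      _ = QuotientGroup.mk (I * J) := by rw [this]
      _ = _ := rfl

end PSL

/-- The relation `∼_m` is conjugacy when every element of `p`-power order is killed by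
`p ^ (m - 1)`. -/
theorem sim_imp_conj {G : Type} [Group G] {p m : ℕ}
    (h : ∀ x : G, (∃ k : ℕ, orderOf x = p ^ k) → x ^ (p ^ (m - 1)) = 1) {g g' : G}
    (hs : Sim p m g g') : IsConj g g' := by
  induction hs with
  | rel x y hxy =>
    rcases hxy with ⟨c, rfl⟩ | ⟨c, _, hc, rfl⟩
    · exact isConj_iff.2 ⟨c, rfl⟩
    · rw [h c hc, mul_one]
  | refl x => exact IsConj.refl x
  | symm x y _ ih => exact ih.symm
  | trans x y z _ _ ih1 ih2 => exact ih1.trans ih2

open scoped MatrixGroups in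
/-- For every finite field `F` with `|F| ≥ 5` and `|F| ≡ 3, 5 (mod 8)` the finite simple group
`PSL(2, F)` of Lie type, whose defining characteristic is not `2`, has elements `g`, `g'` with
`g ≁₂ g'` (for `p = 2`) but `χ(g) - χ(g') ∈ 4ℤ` for every complex character `χ`. -/
theorem result : ∀ (F : Type) [Field F] [Fintype F],
    5 ≤ Fintype.card F → (Fintype.card F % 8 = 3 ∨ Fintype.card F % 8 = 5) →
      IsSimpleGroup PSL(2, F) ∧ ringChar F ≠ 2 ∧
        ∃ g g' : PSL(2, F), ¬ Sim 2 2 g g' ∧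
          ∀ χ : PSL(2, F) → ℂ, IsChar χ → ∃ n : ℤ, χ g - χ g' = 4 * n := by
  classical
  intro F _ _ h5 h8
  have hchar : ringChar F ≠ 2 := by
    intro h
    have heven := FiniteField.even_card_of_char_two h
    omega
  have h2 : (2 : F) ≠ 0 := Ring.two_ne_zero hchar
  have hns : ¬ IsSquare (2 : F) := by
    rw [FiniteField.isSquare_two_iff]
    omega
  refine ⟨Matrix.ProjectiveSpecialLinearGroup.rank_two_simple
    (by rw [Nat.card_eq_fintype_card]; omega), hchar, ?_⟩
  obtain ⟨y, z, hy1, hy, hz, hyz, c1, c2⟩ := exists_quat (F := F) h2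
  refine ⟨1, y, ?_, fun χ hχ => congr_four hy hz hyz c1 c2 χ hχ⟩
  intro hs
  have hconj := sim_imp_conj (p := 2) (m := 2) (fun x hx => by
    obtain ⟨k, hk⟩ := hx
    have : x ^ (2 ^ k) = 1 := by rw [← hk, pow_orderOf_eq_one]
    exact two_power h2 hns k x this) hs
  exact hy1 (isConj_one_right.1 hconj)

end Pool.Agent.Results.MP_cfb286_al.PSLTwoModFour
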